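import Pool.Agent.Helper70.BU.Goals

/-! Packet TW-CLIF: Clifford / Koszul matrices. -/

set_option autoImplicit false

namespace Pool.Agent.Helper58.BU

open Pool.Agent.Helper70.BU

/-- the norm computation -/
lemma key {P Q : Type} [Fintype P] [Fintype Q] (A : Q → P → ℂ) (f : ℂ) (N : ℝ) (x : P → ℂ)
    (y : Q → ℂ) (h1 : ∑ c, ‖∑ a, A c a * x a‖ ^ 2 = N * ∑ a, ‖x a‖ ^ 2)
    (h2 : ∑ a, ‖∑ c, (starRingEnd ℂ) (A c a) * y c‖ ^ 2 = N * ∑ c, ‖y c‖ ^ 2) :
    ∑ c, ‖∑ a, A c a * x a + (starRingEnd ℂ) f * y c‖ ^ 2 +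
      ∑ a, ‖-f * x a + ∑ c, (starRingEnd ℂ) (A c a) * y c‖ ^ 2 =
      (‖f‖ ^ 2 + N) * (∑ a, ‖x a‖ ^ 2 + ∑ c, ‖y c‖ ^ 2) := by
  have e1 : ∀ c, ‖∑ a, A c a * x a + (starRingEnd ℂ) f * y c‖ ^ 2 =
      ‖∑ a, A c a * x a‖ ^ 2 + ‖f‖ ^ 2 * ‖y c‖ ^ 2 +
        2 * (f * ∑ a, A c a * x a * (starRingEnd ℂ) (y c)).re := by
    intro c
    rw [Complex.sq_norm, Complex.normSq_add, ← Complex.sq_norm, ← Complex.sq_norm, norm_mul,
      mul_pow, Complex.norm_conj]
    congr 3
    rw [map_mul, Complex.conj_conj, ← Finset.sum_mul]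
    ring
  have e2 : ∀ a, ‖-f * x a + ∑ c, (starRingEnd ℂ) (A c a) * y c‖ ^ 2 =
      ‖f‖ ^ 2 * ‖x a‖ ^ 2 + ‖∑ c, (starRingEnd ℂ) (A c a) * y c‖ ^ 2 -
        2 * (f * ∑ c, A c a * x a * (starRingEnd ℂ) (y c)).re := by
    intro a
    rw [Complex.sq_norm, Complex.normSq_add, ← Complex.sq_norm, ← Complex.sq_norm, norm_mul,
      mul_pow, norm_neg, sub_eq_add_neg]
    congr 1
    rw [map_sum]
    have : -f * x a * ∑ c, (starRingEnd ℂ) ((starRingEnd ℂ) (A c a) * y c) =
        -(f * ∑ c, A c a * x a * (starRingEnd ℂ) (y c)) := by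
      rw [Finset.mul_sum, Finset.mul_sum, ← Finset.sum_neg_distrib]
      refine Finset.sum_congr rfl (fun c _ => ?_)
      rw [map_mul, Complex.conj_conj]
      ring
    rw [this, Complex.neg_re]
    ring
  have e3 : ∑ c, (f * ∑ a, A c a * x a * (starRingEnd ℂ) (y c)).re =
      ∑ a, (f * ∑ c, A c a * x a * (starRingEnd ℂ) (y c)).re := by
    rw [← Complex.re_sum, ← Complex.re_sum, ← Finset.mul_sum, ← Finset.mul_sum,
      Finset.sum_comm]
  rw [Finset.sum_congr rfl (fun c _ => e1 c), Finset.sum_congr rfl (fun a _ => e2 a),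
    Finset.sum_add_distrib, Finset.sum_add_distrib, Finset.sum_sub_distrib,
    Finset.sum_add_distrib, h1, h2, ← Finset.mul_sum, ← Finset.mul_sum, ← Finset.mul_sum,
    ← Finset.mul_sum, e3]
  ring

theorem clif : CLIF := by
  classical
  intro Z W _ S h0 hneg L
  induction L with
  | nil =>
    intro _
    refine ⟨Unit, Empty, inferInstance, inferInstance, fun _ => 0, fun c => c.elim,
      fun c => c.elim, ?_, ?_, ?_, ?_⟩
    · intro c
      exact c.elim
    · intro z x
      simp
    · intro z y
      simp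
    · intro X n
      simp [dif]
  | cons g L ih =>
    intro hL
    obtain ⟨P, Q, iP, iQ, p, q, A, hA, hx, hy, hX⟩ :=
      ih (fun g' hg' => hL g' (List.mem_cons_of_mem _ hg'))
    have hg := hL g (by simp)
    obtain ⟨f, χ⟩ := g
    obtain ⟨hg1, hg2⟩ := hg
    dsimp only at hg1 hg2
    refine ⟨P ⊕ Q, Q ⊕ P, inferInstance, inferInstance, Sum.elim p (fun c => q c + χ),
      Sum.elim q (fun a => p a + χ),
      fun c' a' z => match c', a' with
        | Sum.inl c, Sum.inl a => A c a z
        | Sum.inl c, Sum.inr c1 => if c = c1 then (starRingEnd ℂ) (f z) else 0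
        | Sum.inr a, Sum.inl a1 => if a = a1 then - f z else 0
        | Sum.inr a, Sum.inr c => (starRingEnd ℂ) (A c a z), ?_, ?_, ?_, ?_⟩
    · intro c' a'
      rcases c' with c | a <;> rcases a' with a1 | c1
      · exact hA c a1
      · simp only [Sum.elim_inl, Sum.elim_inr]
        by_cases h : c = c1
        · subst h
          simp only [if_true]
          rw [show q c - (q c + χ) = -χ by abel, show q c + χ - q c = χ by abel]
          refine ⟨hg2, ?_⟩
          simpa using hg1
        · simp only [if_neg h, map_zero]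
          exact ⟨h0 _, h0 _⟩
      · simp only [Sum.elim_inl, Sum.elim_inr]
        by_cases h : a = a1
        · subst h
          simp only [if_true]
          rw [show p a - (p a + χ) = -χ by abel, show p a + χ - p a = χ by abel]
          refine ⟨hneg _ _ hg1, ?_⟩
          simpa using hneg _ _ hg2
        · simp only [if_neg h, map_zero]
          exact ⟨h0 _, h0 _⟩
      · simp only [Sum.elim_inr]
        rw [show p a + χ - (q c1 + χ) = p a - q c1 by abel,
          show q c1 + χ - (p a + χ) = q c1 - p a by abel]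
        refine ⟨(hA c1 a).2, ?_⟩
        simpa using (hA c1 a).1
    · intro z x
      have h := key (fun c a => A c a z) (f z) _ (fun a => x (Sum.inl a))
        (fun c => x (Sum.inr c)) (hx z _) (hy z _)
      simp only [Fintype.sum_sum_type, List.map_cons, List.sum_cons]
      rw [← h]
      congr 1
      · refine Finset.sum_congr rfl (fun c _ => ?_)
        congr 2
        simp
      · refine Finset.sum_congr rfl (fun a _ => ?_)
        congr 2
        simp
    · intro z y
      have h := key (fun c a => A c a z) ((starRingEnd ℂ) (f z)) _ (fun a => y (Sum.inr a))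
        (fun c => y (Sum.inl c)) (hx z _) (hy z _)
      simp only [Fintype.sum_sum_type, List.map_cons, List.sum_cons]
      rw [Complex.norm_conj] at h
      rw [add_comm (∑ c, ‖y (Sum.inl c)‖ ^ 2), ← h, add_comm]
      congr 1
      · refine Finset.sum_congr rfl (fun c _ => ?_)
        congr 2
        simp [apply_ite (starRingEnd ℂ), add_comm]
      · refine Finset.sum_congr rfl (fun a _ => ?_)
        congr 2
        simp [apply_ite (starRingEnd ℂ), add_comm]
    · intro X n
      have h1 := hX X n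
      have h2 := hX X (n + χ)
      simp only [Fintype.sum_sum_type, List.map_cons, Sum.elim_inl, Sum.elim_inr, dif]
      rw [← h1, ← h2]
      have e1 : ∀ a, n + (p a + χ) = n + χ + p a := fun a => by abel
      have e2 : ∀ c, n + (q c + χ) = n + χ + q c := fun c => by abel
      simp only [e1, e2]
      ring

end Pool.Agent.Helper58.BU
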